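import Pool.Agent.MP_c69980_ag.H43.Spec7

/-!
Limits of sequences along an ultrafilter, inside the same field.
-/

set_option autoImplicit false

namespace Pool.Agent.MP_c69980_ag.H43

open MvPolynomial Filter

theorem trf_ext {R G L : Type} [CommRing R] [Field G] [Field L] (f : R →+* G) (g : R →+* L)
    (h : ∀ r, f r = 0 ↔ g r = 0) :
    ∃ (E : Subfield G) (ψ : E →+* L), ∀ r, ∃ hr : f r ∈ E, ψ ⟨f r, hr⟩ = g r := by
  have : (RingHom.ker f).IsPrime := RingHom.ker_isPrime f
  let g' : R ⧸ RingHom.ker f →+* L := Ideal.Quotient.lift _ g fun r hr => (h r).1 hr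
  have hg : Function.Injective g' := (injective_iff_map_eq_zero _).2 fun r hr => by
    obtain ⟨r, rfl⟩ := Ideal.Quotient.mk_surjective r
    exact Ideal.Quotient.eq_zero_iff_mem.2 ((h r).2 hr)
  let α : FractionRing (R ⧸ RingHom.ker f) →+* G := IsFractionRing.lift f.kerLift_injective
  let β : FractionRing (R ⧸ RingHom.ker f) →+* L := IsFractionRing.lift hg
  have e : ∀ r, α (algebraMap _ _ (Ideal.Quotient.mk (RingHom.ker f) r)) = f r := fun r => by
    rw [IsFractionRing.lift_algebraMap, RingHom.kerLift_mk]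
  refine ⟨α.fieldRange, β.comp α.rangeRestrictFieldEquiv.symm.toRingHom, fun r => ⟨⟨_, e r⟩, ?_⟩⟩
  have : α.rangeRestrictFieldEquiv.symm ⟨f r, ⟨_, e r⟩⟩ =
      algebraMap _ _ (Ideal.Quotient.mk (RingHom.ker f) r) :=
    (RingEquiv.symm_apply_eq _).2 (Subtype.ext (e r).symm)
  change β (α.rangeRestrictFieldEquiv.symm _) = _
  rw [this, IsFractionRing.lift_algebraMap]
  rfl

theorem trf_cl {L : Type} [Field L] {S : Set L} (h : S.Countable) :
    (Subfield.closure S : Set L).Countable := by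
  rw [← Cardinal.le_aleph0_iff_set_countable] at h ⊢
  exact (Subfield.cardinalMk_closure_le_max S).trans (max_le h le_rfl)

theorem trf_sub {L ι : Type} [Field L] [Algebra ℂ L] (B : Module.Basis ι ℂ L) {T : Set L}
    (hT : T.Countable) : ∃ F : Subfield L, (F : Set L).Countable ∧ T ⊆ F ∧
      ∀ x ∈ F, ∀ i, algebraMap ℂ L (B.repr x i) ∈ F := by
  let D : Set L → Set L := fun S => ⋃ x ∈ S, Set.range fun i => algebraMap ℂ L (B.repr x i)
  have hD : ∀ S : Set L, S.Countable → (D S).Countable := fun S hS =>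
    hS.biUnion fun x _ => by
      rw [show (fun i => algebraMap ℂ L (B.repr x i)) = algebraMap ℂ L ∘ B.repr x from rfl,
        Set.range_comp]
      exact ((B.repr x).finite_range.image _).countable
  let S : ℕ → Subfield L := fun n => n.rec (Subfield.closure T) fun _ F => Subfield.closure (F ∪ D F)
  have h1 : ∀ n, (SetLike.coe (S n)).Countable := fun n => by
    induction n with
    | zero => exact trf_cl hT
    | succ n ih => exact trf_cl (ih.union (hD _ ih))
  have h2 : Monotone S := monotone_nat_of_le_succ fun n x hx =>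
    Subfield.subset_closure (Or.inl hx)
  have h3 : ∀ x, x ∈ ⨆ n, S n ↔ ∃ n, x ∈ S n := fun x =>
    Subfield.mem_iSup_of_directed h2.directed_le
  refine ⟨⨆ n, S n, (Set.countable_iUnion h1).mono fun x hx => Set.mem_iUnion.2 ((h3 x).1 hx),
    fun x hx => (h3 x).2 ⟨0, Subfield.subset_closure hx⟩, fun x hx i => ?_⟩
  obtain ⟨n, hn⟩ := (h3 x).1 hx
  exact (h3 _).2 ⟨n + 1, Subfield.subset_closure (Or.inr (Set.mem_biUnion hn ⟨i, rfl⟩))⟩

theorem trf_pt (h : SEmb) (U : Ultrafilter ℕ) (k : Subfield ℂ) [Countable k] {κ : Type}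
    [Finite κ] (a : κ → ℕ → ℂ) : ∃ b : κ → ℂ, ∀ p : MvPolynomial κ k,
      (∀ᶠ n in U, aeval (fun i => a i n) p = 0) ↔ aeval b p = 0 := by
  let f : MvPolynomial κ k →+* Germ (U : Filter ℕ) ℂ := (Germ.coeRingHom (U : Filter ℕ)).comp
    (RingHom.pi fun n => (aeval fun i => a i n : MvPolynomial κ k →ₐ[k] ℂ).toRingHom)
  have : (RingHom.ker f).IsPrime := RingHom.ker_isPrime f
  have : Countable (MvPolynomial κ k) := by
    rw [← Cardinal.mk_le_aleph0_iff]
    exact MvPolynomial.cardinalMk_le_max.trans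
      (max_le (max_le Cardinal.mk_le_aleph0 Cardinal.mk_le_aleph0) le_rfl)
  have : Countable (MvPolynomial κ k ⧸ RingHom.ker f) := Ideal.Quotient.mk_surjective.countable
  obtain ⟨φ, hφ⟩ := h.1 k ‹_› (MvPolynomial κ k ⧸ RingHom.ker f)
    (Cardinal.mk_le_aleph0.trans Cardinal.aleph0_le_continuum)
  refine ⟨fun i => φ (Ideal.Quotient.mk _ (X i)), fun p => ?_⟩
  have e : aeval (fun i => φ (Ideal.Quotient.mk _ (X i))) p = φ (Ideal.Quotient.mk _ p) :=
    AlgHom.congr_fun (φ₁ := aeval fun i => φ (Ideal.Quotient.mk _ (X i)))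
      (φ₂ := φ.comp (Ideal.Quotient.mkₐ k _)) (algHom_ext fun i => by simp) p
  rw [e, map_eq_zero_iff _ hφ, Ideal.Quotient.eq_zero_iff_mem, RingHom.mem_ker]
  exact (Germ.coe_eq (g := 0)).symm

theorem sTrf (h : SEmb) : STrf := by
  classical
  intro L _ _ U T s κ _ a hT hs
  let B := Module.Basis.ofVectorSpace ℂ L
  obtain ⟨F, f1, f2, f3⟩ := trf_sub B (hT.union (hs.image (algebraMap ℂ L)))
  let k : Subfield ℂ := F.comap (algebraMap ℂ L)
  have hk : Countable k := (f1.preimage_of_injOn (algebraMap ℂ L).injective.injOn).to_subtype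
  obtain ⟨b, hb⟩ := trf_pt h U k a
  let ev : (κ → ℂ) → MvPolynomial κ F →+* L := fun c =>
    eval₂Hom F.subtype fun i => algebraMap ℂ L (c i)
  let co : MvPolynomial κ F → _ → MvPolynomial κ k := fun H i =>
    ∑ m ∈ H.support, monomial m ⟨B.repr (H.coeff m).1 i, f3 _ (H.coeff m).2 i⟩
  have e1 : ∀ c H i, B.repr (ev c H) i = aeval c (co H i) := fun c H i => by
    simp only [ev, co, coe_eval₂Hom, eval₂_eq, map_sum, Finsupp.coe_finsetSum, Finset.sum_apply,
      aeval_monomial]
    refine Finset.sum_congr rfl fun m _ => ?_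
    simp only [← map_pow, ← map_prod]
    rw [mul_comm, ← Algebra.smul_def, map_smul, mul_comm]
    rfl
  have e2 : ∀ H, (∀ᶠ n in U, ev (fun i => a i n) H = 0) ↔ ev b H = 0 := fun H => by
    refine ⟨fun h1 => B.ext_elem fun i => ?_, fun h1 => ?_⟩
    · rw [e1, (hb _).1 (h1.mono fun n hn => by rw [← e1, hn]; simp)]
      simp
    · let I := H.support.biUnion fun m => (B.repr (H.coeff m).1).support
      have h2 := (eventually_all_finset I).2 fun i _ => (hb (co H i)).2 (by rw [← e1, h1]; simp)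
      refine h2.mono fun n hn => B.ext_elem fun i => ?_
      rw [e1, map_zero, Finsupp.zero_apply]
      by_cases hi : i ∈ I
      · exact hn i hi
      have h3 : co H i = 0 := Finset.sum_eq_zero fun m hm => by
        rw [monomial_eq_zero]
        exact Subtype.ext (Finsupp.notMem_support_iff.1 fun h4 =>
          hi (Finset.mem_biUnion.2 ⟨m, hm, h4⟩))
      rw [h3, map_zero]
  let π : (ℕ → L) →+* Germ (U : Filter ℕ) L := Germ.coeRingHom (U : Filter ℕ)
  let f : MvPolynomial κ F →+* ℕ → L := RingHom.pi fun n => ev fun i => a i n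
  obtain ⟨E, ψ, hψ⟩ := trf_ext (π.comp f) (ev b) fun H => (Germ.coe_eq (g := 0)).trans (e2 H)
  let Φ : E.toSubring.comap π →+* L :=
    ψ.comp ((π.comp (Subring.subtype _)).codRestrict E fun x => x.2)
  have key : ∀ (H : MvPolynomial κ F) (x : ℕ → L) (y : L), (∀ n, ev (fun i => a i n) H = x n) →
      ev b H = y → ∃ h, Φ ⟨x, h⟩ = y := fun H x y h1 h2 => by
    obtain rfl : f H = x := funext h1
    obtain ⟨h3, h4⟩ := hψ H
    exact ⟨h3, h4.trans h2⟩
  refine ⟨k, E.toSubring.comap π, Φ, b, hk, fun c hc => f2 (Or.inr ⟨c, hc, rfl⟩), fun x => ?_,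
    fun x hx => ?_, fun x hx => key (C ⟨x, f2 (Or.inl hx)⟩) _ _ (by simp [ev]) (by simp [ev]),
    fun c hc => key (C ⟨_, hc⟩) _ _ (by simp [ev]) (by simp [ev]),
    fun i => key (X i) _ _ (by simp [ev]) (by simp [ev])⟩
  · refine (map_eq_zero ψ).trans (Subtype.ext_iff.trans ?_)
    exact Germ.coe_eq (g := 0)
  · exact E.inv_mem hx

end Pool.Agent.MP_c69980_ag.H43
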